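import Mathlib

/-!
# Random sequential upper semicontinuity does not imply `T_c`-upper semicontinuity
-/

set_option autoImplicit false

open MeasureTheory Set Filter Topology
open scoped ENNReal

namespace Pool.Agent.Results.MP_4f3acd_an.RandomUpperSemicontinuity

section Defs

variable {Ω : Type} [MeasurableSpace Ω] {P : Measure Ω} {𝕂 : Type} [RCLike 𝕂]

/-- `L⁰(P, 𝕂)`, the a.e.-classes of `𝕂`-valued measurable functions, is a commutative ring with the
pointwise operations (these are Mathlib's addition and multiplication of classes). -/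
noncomputable instance instRing : CommRing (Ω →ₘ[P] 𝕂) :=
  { (inferInstance : AddCommGroup (Ω →ₘ[P] 𝕂)), (inferInstance : CommMonoid (Ω →ₘ[P] 𝕂)) with
    left_distrib := by
      intro a b c
      induction a using AEEqFun.induction_on with
      | H f hf =>
        induction b using AEEqFun.induction_on with
        | H g hg =>
          induction c using AEEqFun.induction_on with
          | H h hh =>
            simp only [AEEqFun.mk_add_mk, AEEqFun.mk_mul_mk, mul_add]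
    right_distrib := by
      intro a b c
      induction a using AEEqFun.induction_on with
      | H f hf =>
        induction b using AEEqFun.induction_on with
        | H g hg =>
          induction c using AEEqFun.induction_on with
          | H h hh =>
            simp only [AEEqFun.mk_add_mk, AEEqFun.mk_mul_mk, add_mul]
    zero_mul := by
      intro a
      induction a using AEEqFun.induction_on with
      | H f hf =>
        rw [AEEqFun.zero_def, AEEqFun.mk_mul_mk]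
        simp only [AEEqFun.mk_eq_mk]
        filter_upwards with ω
        simp
    mul_zero := by
      intro a
      induction a using AEEqFun.induction_on with
      | H f hf =>
        rw [AEEqFun.zero_def, AEEqFun.mk_mul_mk]
        simp only [AEEqFun.mk_eq_mk]
        filter_upwards with ω
        simp }

/-- The absolute value `|ξ|` of the class `ξ` of a random variable. -/
noncomputable def absL (ξ : Ω →ₘ[P] 𝕂) : Ω →ₘ[P] ℝ :=
  AEEqFun.comp (fun z : 𝕂 => ‖z‖) continuous_norm ξ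

/-- The class of the indicator function of a measurable set. -/
noncomputable def ind {a : Set Ω} (ha : MeasurableSet a) : Ω →ₘ[P] 𝕂 :=
  AEEqFun.mk (a.indicator fun _ => (1 : 𝕂))
    (stronglyMeasurable_const.indicator ha).aestronglyMeasurable

/-- An `L⁰`-norm which makes the `L⁰(P, 𝕂)`-module `E` an RN module. -/
structure RNNorm (P : Measure Ω) (𝕂 : Type) [RCLike 𝕂] (E : Type) [AddCommGroup E]
    [Module (Ω →ₘ[P] 𝕂) E] where
  /-- the norm, with values in the classes of real random variables -/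
  nm : E → (Ω →ₘ[P] ℝ)
  nonneg : ∀ x, 0 ≤ nm x
  smul : ∀ (ξ : Ω →ₘ[P] 𝕂) (x : E), nm (ξ • x) = absL ξ * nm x
  add_le : ∀ x y, nm (x + y) ≤ nm x + nm y
  eq_zero : ∀ x, nm x = 0 → x = 0

/-- A countable measurable partition of `Ω`. -/
structure Partition (Ω : Type) [MeasurableSpace Ω] where
  /-- the `k`-th set -/
  part : ℕ → Set Ω
  meas : ∀ k, MeasurableSet (part k)
  disj : Pairwise (Function.onFun Disjoint part)
  cover : ⋃ k, part k = univ

/-- The partition of `Ω` into the level sets of a random variable with values in `ℕ`. -/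
def levels {n : Ω → ℕ} (hn : Measurable n) : Partition Ω where
  part l := n ⁻¹' {l}
  meas l := hn (measurableSet_singleton l)
  disj := by
    intro i j hij
    exact Disjoint.preimage n (by simpa using hij)
  cover := by
    ext ω
    simp

variable {E : Type} [AddCommGroup E] [Module (Ω →ₘ[P] 𝕂) E]
variable {E' : Type} [AddCommGroup E'] [Module (Ω →ₘ[P] 𝕂) E']

/-- `y = ∑ I_{a_k} x_k`, that is, `I_{a_k} y = I_{a_k} x_k` for all `k`. -/
def IsConcat (P : Measure Ω) (𝕂 : Type) [RCLike 𝕂] {E : Type} [AddCommGroup E]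
    [Module (Ω →ₘ[P] 𝕂) E] (a : Partition Ω) (x : ℕ → E) (y : E) : Prop :=
  ∀ k, (ind (a.meas k) : Ω →ₘ[P] 𝕂) • y = (ind (a.meas k) : Ω →ₘ[P] 𝕂) • x k

/-- `σ`-stable sets. -/
def SigmaStable (P : Measure Ω) (𝕂 : Type) [RCLike 𝕂] {E : Type} [AddCommGroup E]
    [Module (Ω →ₘ[P] 𝕂) E] (X : Set E) : Prop :=
  X.Nonempty ∧ ∀ (a : Partition Ω) (x : ℕ → E), (∀ k, x k ∈ X) → ∃ y ∈ X, IsConcat P 𝕂 a x y

/-- `σ`-stable set-valued maps on `X`:
`F (∑ I_{a_k} x_k) = {∑ I_{a_k} y_k : y_k ∈ F (x_k)}`. -/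
def SigmaStableMap (P : Measure Ω) (𝕂 : Type) [RCLike 𝕂] {E E' : Type} [AddCommGroup E]
    [Module (Ω →ₘ[P] 𝕂) E] [AddCommGroup E'] [Module (Ω →ₘ[P] 𝕂) E'] (X : Set E)
    (F : E → Set E') : Prop :=
  ∀ (a : Partition Ω) (x : ℕ → E), (∀ k, x k ∈ X) → ∀ x' ∈ X, IsConcat P 𝕂 a x x' →
    F x' = {y' | ∃ y : ℕ → E', (∀ k, y k ∈ F (x k)) ∧ IsConcat P 𝕂 a y y'}

/-- Open sets of the `(ε, λ)`-topology. -/
def OpenEL (N : RNNorm P 𝕂 E) (U : Set E) : Prop :=
  ∀ x ∈ U, ∃ ε : ℝ, 0 < ε ∧ ∃ r : ℝ, 0 < r ∧ r < 1 ∧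
    ∀ y, 1 - r < (P {ω | N.nm (y - x) ω < ε}).toReal → y ∈ U

/-- Open sets of the topology `T_c`. -/
def OpenC (N : RNNorm P 𝕂 E) (U : Set E) : Prop :=
  ∀ x ∈ U, ∃ ε : Ω →ₘ[P] ℝ, (∀ᵐ ω ∂P, 0 < ε ω) ∧
    ∀ y, (∀ᵐ ω ∂P, N.nm (y - x) ω < ε ω) → y ∈ U

/-- `W` is a neighbourhood of `A` for the topology with open sets `Op`. -/
def IsNbhd {E : Type} (Op : Set E → Prop) (A W : Set E) : Prop := ∃ U, Op U ∧ A ⊆ U ∧ U ⊆ W

/-- Upper semicontinuity of `F` on `X` for given topologies of the domain and the range. -/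
def USC {E E' : Type} (Op : Set E → Prop) (Op' : Set E' → Prop) (X : Set E) (F : E → Set E') :
    Prop :=
  ∀ x₀ ∈ X, ∀ U, IsNbhd Op' (F x₀) U → ∃ V, IsNbhd Op {x₀} V ∧ ∀ x ∈ V ∩ X, F x ⊆ U

/-- Convergence of sequences in the `(ε, λ)`-topology (convergence in probability). -/
def ConvEL (N : RNNorm P 𝕂 E) (x : ℕ → E) (x₀ : E) : Prop :=
  ∀ ε : ℝ, 0 < ε → ∀ r : ℝ, 0 < r → ∃ m, ∀ n, m ≤ n →
    1 - r < (P {ω | N.nm (x n - x₀) ω < ε}).toReal

/-- Random sequential upper semicontinuity of `F` on `X`: if `x_n → x₀` in the `(ε, λ)`-topology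
and `V` is a neighbourhood of `F x₀` for this topology, then `F (y_k) ⊆ V` for all large `k`, for
some random subsequence `y_k = ∑_l I_{(n_k = l)} x_l`, `n_k < n_{k+1}`. -/
def RandomSeqUSC (N : RNNorm P 𝕂 E) (N' : RNNorm P 𝕂 E') (X : Set E) (F : E → Set E') : Prop :=
  ∀ x₀ ∈ X, ∀ x : ℕ → E, (∀ n, x n ∈ X) → ConvEL N x x₀ → ∀ V, IsNbhd (OpenEL N') (F x₀) V →
    ∃ (n : ℕ → Ω → ℕ) (hn : ∀ k, Measurable (n k)) (y : ℕ → E),
      (∀ k, ∀ᵐ ω ∂P, n k ω < n (k + 1) ω) ∧ (∀ k, y k ∈ X) ∧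
      (∀ k, IsConcat P 𝕂 (levels (hn k)) x (y k)) ∧ ∃ k₀, ∀ k, k₀ ≤ k → F (y k) ⊆ V

/-- The RN module `L⁰(P, 𝕂)`, with the absolute value as its norm. -/
noncomputable def absNorm (P : Measure Ω) (𝕂 : Type) [RCLike 𝕂] :
    RNNorm P 𝕂 (Ω →ₘ[P] 𝕂) where
  nm := absL
  nonneg x := by
    rw [← AEEqFun.coeFn_le]
    filter_upwards [AEEqFun.coeFn_comp (fun z : 𝕂 => ‖z‖) continuous_norm x,
      AEEqFun.coeFn_zero (α := Ω) (β := ℝ) (μ := P)] with ω h1 h2
    unfold absL
    rw [h1, h2]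
    simp
  smul ξ x := by
    apply AEEqFun.ext
    unfold absL
    filter_upwards [AEEqFun.coeFn_comp (fun z : 𝕂 => ‖z‖) continuous_norm (ξ • x),
      AEEqFun.coeFn_comp (fun z : 𝕂 => ‖z‖) continuous_norm ξ,
      AEEqFun.coeFn_comp (fun z : 𝕂 => ‖z‖) continuous_norm x,
      AEEqFun.coeFn_mul (AEEqFun.comp (fun z : 𝕂 => ‖z‖) continuous_norm ξ)
        (AEEqFun.comp (fun z : 𝕂 => ‖z‖) continuous_norm x),
      AEEqFun.coeFn_mul ξ x] with ω h1 h2 h3 h4 h5
    rw [h1, h4]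
    simp only [Pi.mul_apply]
    rw [h2, h3]
    simp only [Function.comp_apply]
    rw [smul_eq_mul, h5]
    simp
  add_le x y := by
    rw [← AEEqFun.coeFn_le]
    unfold absL
    filter_upwards [AEEqFun.coeFn_comp (fun z : 𝕂 => ‖z‖) continuous_norm (x + y),
      AEEqFun.coeFn_comp (fun z : 𝕂 => ‖z‖) continuous_norm x,
      AEEqFun.coeFn_comp (fun z : 𝕂 => ‖z‖) continuous_norm y,
      AEEqFun.coeFn_add (AEEqFun.comp (fun z : 𝕂 => ‖z‖) continuous_norm x)
        (AEEqFun.comp (fun z : 𝕂 => ‖z‖) continuous_norm y),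
      AEEqFun.coeFn_add x y] with ω h1 h2 h3 h4 h5
    rw [h1, h4]
    simp only [Pi.add_apply]
    rw [h2, h3]
    simp only [Function.comp_apply]
    rw [h5]
    exact norm_add_le _ _
  eq_zero x hx := by
    apply AEEqFun.ext
    unfold absL at hx
    have h0 := AEEqFun.coeFn_comp (fun z : 𝕂 => ‖z‖) continuous_norm x
    rw [hx] at h0
    filter_upwards [h0, AEEqFun.coeFn_zero (α := Ω) (β := ℝ) (μ := P),
      AEEqFun.coeFn_zero (α := Ω) (β := 𝕂) (μ := P)] with ω h1 h2 h3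
    rw [h3]
    rw [h2] at h1
    simp only [Function.comp_apply, Pi.zero_apply] at h1 ⊢
    exact norm_eq_zero.mp h1.symm

end Defs

section Example

/-- The probability measure on `ℕ` with `P {k} = 2 ^ (-(k + 1))`. -/
noncomputable def P0 : Measure ℕ :=
  Measure.sum fun k : ℕ => ((2 : ℝ≥0∞)⁻¹ ^ (k + 1)) • Measure.dirac k

instance : IsProbabilityMeasure P0 := by
  constructor
  unfold P0
  rw [Measure.sum_apply _ MeasurableSet.univ]
  simp only [Measure.smul_apply, measure_univ, smul_eq_mul, mul_one]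
  rw [ENNReal.tsum_geometric_add_one, ENNReal.one_sub_inv_two, inv_inv]
  exact ENNReal.inv_mul_cancel (by norm_num) (by norm_num)

theorem P0_pos {s : Set ℕ} {k : ℕ} (hk : k ∈ s) : 0 < P0 s := by
  have h1 : ((2 : ℝ≥0∞)⁻¹ ^ (k + 1)) ≤ P0 s := by
    unfold P0
    rw [Measure.sum_apply _ (MeasurableSet.of_discrete)]
    refine le_trans (le_of_eq ?_) (ENNReal.le_tsum k)
    rw [Measure.smul_apply, Measure.dirac_apply_of_mem hk]
    simp
  refine lt_of_lt_of_le ?_ h1
  exact ENNReal.pow_pos (by simp) _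

theorem ae_iff_all {Q : ℕ → Prop} : (∀ᵐ ω ∂P0, Q ω) ↔ ∀ ω, Q ω := by
  constructor
  · intro h ω
    by_contra hcon
    have h1 : P0 {x | ¬ Q x} = 0 := ae_iff.mp h
    exact absurd h1 (P0_pos (k := ω) hcon).ne'
  · intro h
    exact Eventually.of_forall h

variable {𝕂 : Type} [RCLike 𝕂]

theorem ext' {β : Type} [TopologicalSpace β] {f g : ℕ →ₘ[P0] β} (h : ∀ n, f n = g n) : f = g :=
  AEEqFun.ext (Eventually.of_forall h)

/-- the class of a function -/
noncomputable def mkf {β : Type} [TopologicalSpace β] [SecondCountableTopology β]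
    [TopologicalSpace.PseudoMetrizableSpace β] (f : ℕ → β) : ℕ →ₘ[P0] β :=
  AEEqFun.mk f (by
    borelize β
    exact (measurable_of_countable f).aestronglyMeasurable)

theorem mkf_apply {β : Type} [TopologicalSpace β] [SecondCountableTopology β]
    [TopologicalSpace.PseudoMetrizableSpace β] (f : ℕ → β) (n : ℕ) : mkf f n = f n :=
  ae_iff_all.mp (AEEqFun.coeFn_mk f _) n

theorem sub_apply' (x y : ℕ →ₘ[P0] 𝕂) (n : ℕ) : (x - y) n = x n - y n :=
  ae_iff_all.mp (AEEqFun.coeFn_sub x y) n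

theorem abs_apply (x : ℕ →ₘ[P0] 𝕂) (n : ℕ) : (absNorm P0 𝕂).nm x n = ‖x n‖ :=
  ae_iff_all.mp (AEEqFun.coeFn_comp (fun z : 𝕂 => ‖z‖) continuous_norm x) n

theorem ind_apply {a : Set ℕ} (ha : MeasurableSet a) (y : ℕ →ₘ[P0] 𝕂) (n : ℕ) :
    ((ind ha : ℕ →ₘ[P0] 𝕂) • y) n = a.indicator (fun _ => (1 : 𝕂)) n * y n := by
  have h1 := ae_iff_all.mp (AEEqFun.coeFn_mul (ind ha : ℕ →ₘ[P0] 𝕂) y) n
  have h2 : (ind ha : ℕ →ₘ[P0] 𝕂) n = a.indicator (fun _ => (1 : 𝕂)) n :=
    ae_iff_all.mp (AEEqFun.coeFn_mk _ _) n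
  rw [smul_eq_mul, h1, Pi.mul_apply, h2]

theorem concat_iff (a : Partition ℕ) (x : ℕ → (ℕ →ₘ[P0] 𝕂)) (y : ℕ →ₘ[P0] 𝕂) :
    IsConcat P0 𝕂 a x y ↔ ∀ k, ∀ n ∈ a.part k, y n = x k n := by
  constructor
  · intro h k n hn
    have h1 : ((ind (a.meas k) : ℕ →ₘ[P0] 𝕂) • y) n = ((ind (a.meas k) : ℕ →ₘ[P0] 𝕂) • x k) n := by
      rw [h k]
    rw [ind_apply, ind_apply, Set.indicator_of_mem hn, one_mul, one_mul] at h1
    exact h1
  · intro h k
    apply ext'
    intro n
    rw [ind_apply, ind_apply]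
    by_cases hn : n ∈ a.part k
    · rw [h k n hn]
    · rw [Set.indicator_of_notMem hn, zero_mul, zero_mul]

theorem exists_part (a : Partition ℕ) (n : ℕ) : ∃ k, n ∈ a.part k := by
  have : n ∈ ⋃ k, a.part k := by rw [a.cover]; trivial
  simpa using this

/-- the index of the set of the partition which contains `n` -/
noncomputable def idx (a : Partition ℕ) (n : ℕ) : ℕ := (exists_part a n).choose

theorem idx_spec (a : Partition ℕ) (n : ℕ) : n ∈ a.part (idx a n) := (exists_part a n).choose_spec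

theorem idx_eq (a : Partition ℕ) {n k : ℕ} (h : n ∈ a.part k) : idx a n = k := by
  by_contra hne
  exact Set.disjoint_left.mp (a.disj hne) (idx_spec a n) h

/-- The set-valued map: `F x` is the set of all `x + z` where `z` has the values `0` and `1` only. -/
def F (x : ℕ →ₘ[P0] 𝕂) : Set (ℕ →ₘ[P0] 𝕂) := {y | ∀ n, y n = x n ∨ y n = x n + 1}

theorem stable_univ : SigmaStable P0 𝕂 (univ : Set (ℕ →ₘ[P0] 𝕂)) := by
  refine ⟨univ_nonempty, fun a x _ => ⟨mkf fun n => x (idx a n) n, trivial, ?_⟩⟩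
  rw [concat_iff]
  intro k n hn
  rw [mkf_apply, idx_eq a hn]

theorem stable_F : SigmaStableMap P0 𝕂 (univ : Set (ℕ →ₘ[P0] 𝕂)) (F : (ℕ →ₘ[P0] 𝕂) → _) := by
  intro a x _ x' _ hx
  rw [concat_iff] at hx
  ext y'
  simp only [Set.mem_ofPred_eq]
  constructor
  · intro hy
    classical
    refine ⟨fun k => mkf fun n => if n ∈ a.part k then y' n else x k n, ?_, ?_⟩
    · intro k n
      rw [mkf_apply]
      split_ifs with h
      · rw [← hx k n h]; exact hy n
      · left; rfl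
    · rw [concat_iff]
      intro k n hn
      rw [mkf_apply, if_pos hn]
  · rintro ⟨y, hy, hy'⟩ n
    rw [concat_iff] at hy'
    rw [hy' _ n (idx_spec a n), hx _ n (idx_spec a n)]
    exact hy (idx a n) n

theorem stable_concat_self (x : ℕ → (ℕ →ₘ[P0] 𝕂)) (k : ℕ) :
    IsConcat P0 𝕂 (levels (measurable_const (a := k) : Measurable fun _ : ℕ => k)) x (x k) := by
  rw [concat_iff]
  intro l n hn
  have : k = l := hn
  rw [this]

/-- For an open set which contains `F x₀` for the topology of convergence in probability there are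
`ε > 0` and `N` such that `F x` is contained in it if `|x n - x₀ n| < ε` for `n ≤ N`. -/
theorem tube (x₀ : ℕ →ₘ[P0] 𝕂) (U : Set (ℕ →ₘ[P0] 𝕂)) (hU : OpenEL (absNorm P0 𝕂) U)
    (hF : F x₀ ⊆ U) : ∃ ε : ℝ, 0 < ε ∧ ∃ N : ℕ, ∀ x : ℕ →ₘ[P0] 𝕂, (∀ n ≤ N, ‖x n - x₀ n‖ < ε) →
      F x ⊆ U := by
  -- the point `x₀ + z`
  let pt : (ℕ → Bool) → (ℕ →ₘ[P0] 𝕂) := fun z => mkf fun n => x₀ n + if z n then 1 else 0
  have hpt : ∀ z, pt z ∈ U := by
    intro z
    apply hF
    intro n
    simp only [pt, mkf_apply]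
    split_ifs
    · right; rfl
    · left; simp
  have key : ∀ z : ℕ → Bool, ∃ ε : ℝ, 0 < ε ∧ ∃ N : ℕ, ∀ y : ℕ →ₘ[P0] 𝕂,
      (∀ n ≤ N, ‖y n - pt z n‖ < ε) → y ∈ U := by
    intro z
    obtain ⟨ε, hε, r, hr, -, h⟩ := hU _ (hpt z)
    have hlim : Tendsto (fun N : ℕ => P0 (Set.Iic N)) atTop (𝓝 (P0 (⋃ N : ℕ, Set.Iic N))) :=
      tendsto_measure_iUnion_atTop (fun a b hab => Set.Iic_subset_Iic.mpr hab)
    have hun : (⋃ N : ℕ, Set.Iic N) = (univ : Set ℕ) := by
      ext n; simp only [mem_iUnion, mem_Iic, mem_univ, iff_true]; exact ⟨n, le_rfl⟩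
    rw [hun, measure_univ] at hlim
    have hlim2 := (ENNReal.tendsto_toReal (by norm_num)).comp hlim
    have h3 : ∀ᶠ N : ℕ in atTop, 1 - r < (P0 (Set.Iic N)).toReal := by
      apply hlim2.eventually
      simp only [ENNReal.toReal_one]
      exact lt_mem_nhds (by linarith)
    obtain ⟨N, hN⟩ := h3.exists
    refine ⟨ε, hε, N, fun y hy => h y (lt_of_lt_of_le hN ?_)⟩
    apply ENNReal.toReal_mono (measure_ne_top _ _)
    apply measure_mono
    intro n hn
    simp only [Set.mem_ofPred_eq]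
    rw [abs_apply, sub_apply']
    exact hy n hn
  choose ε hε N hN using key
  -- compactness
  have hopen : ∀ z : ℕ → Bool, IsOpen {w : ℕ → Bool | ∀ n ≤ N z, w n = z n} := by
    intro z
    have : {w : ℕ → Bool | ∀ n ≤ N z, w n = z n} =
        ⋂ n ∈ Set.Iic (N z), {w : ℕ → Bool | w n = z n} := by
      ext w; simp
    rw [this]
    apply (Set.finite_Iic (N z)).isOpen_biInter
    intro n _
    have h1 : Continuous fun w : ℕ → Bool => w n := continuous_apply n
    exact (isOpen_discrete ({z n} : Set Bool)).preimage h1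
  obtain ⟨t, -, ht⟩ := isCompact_univ.elim_nhds_subcover
    (fun z : ℕ → Bool => {w : ℕ → Bool | ∀ n ≤ N z, w n = z n})
    (fun z _ => (hopen z).mem_nhds (by intro n _; rfl))
  have htne : t.Nonempty := by
    obtain ⟨z, hz, -⟩ := Set.mem_iUnion₂.mp (ht (mem_univ fun _ => true))
    exact ⟨z, hz⟩
  refine ⟨t.inf' htne ε, ?_, t.sup N, ?_⟩
  · rw [Finset.lt_inf'_iff]
    intro z _
    exact hε z
  · intro x hx y hy
    classical
    -- the pattern of `y`
    let w : ℕ → Bool := fun n => decide (y n = x n + 1)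
    obtain ⟨z, hz, hwz⟩ := Set.mem_iUnion₂.mp (ht (mem_univ w))
    apply hN z
    intro n hn
    have h1 : w n = z n := hwz n hn
    have h2 : y n = x n + if w n then 1 else 0 := by
      simp only [w, decide_eq_true_eq]
      split_ifs with h
      · exact h
      · rcases hy n with h' | h'
        · rw [h']; simp
        · exact absurd h' h
    have h3 : y n - pt z n = x n - x₀ n := by
      simp only [pt, mkf_apply]
      rw [h2, h1]
      ring
    rw [h3]
    have h4 := hx n (hn.trans (Finset.le_sup (f := N) hz))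
    exact lt_of_lt_of_le h4 (Finset.inf'_le ε hz)

theorem conv_coord {x : ℕ → (ℕ →ₘ[P0] 𝕂)} {x₀ : ℕ →ₘ[P0] 𝕂} (h : ConvEL (absNorm P0 𝕂) x x₀)
    {ε : ℝ} (hε : 0 < ε) (j : ℕ) : ∃ m, ∀ n, m ≤ n → ‖x n j - x₀ j‖ < ε := by
  have hpos : 0 < (P0 {j}).toReal :=
    ENNReal.toReal_pos (P0_pos (mem_singleton j)).ne' (measure_ne_top _ _)
  obtain ⟨m, hm⟩ := h ε hε _ hpos
  refine ⟨m, fun n hn => ?_⟩
  have h1 := hm n hn
  by_contra hcon
  have h2 : {ω | (absNorm P0 𝕂).nm (x n - x₀) ω < ε} ⊆ {j}ᶜ := by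
    intro ω hω hj
    have : ω = j := hj
    subst this
    simp only [Set.mem_ofPred_eq] at hω
    rw [abs_apply, sub_apply'] at hω
    exact hcon hω
  have h3 : (P0 {ω | (absNorm P0 𝕂).nm (x n - x₀) ω < ε}).toReal ≤ (P0 ({j}ᶜ : Set ℕ)).toReal :=
    ENNReal.toReal_mono (measure_ne_top _ _) (measure_mono h2)
  have h4 : (P0 ({j}ᶜ : Set ℕ)).toReal = 1 - (P0 {j}).toReal := by
    have := probReal_compl_eq_one_sub (μ := P0) (measurableSet_singleton j)
    simpa [Measure.real] using this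
  linarith

theorem rs_usc : RandomSeqUSC (absNorm P0 𝕂) (absNorm P0 𝕂) univ F := by
  intro x₀ _ x _ hx V hV
  obtain ⟨U, hU, hFU, hUV⟩ := hV
  obtain ⟨ε, hε, N, hN⟩ := tube x₀ U hU hFU
  refine ⟨fun k _ => k, fun k => measurable_const, x, ?_, fun _ => trivial, ?_, ?_⟩
  · intro k
    exact Eventually.of_forall fun ω => Nat.lt_succ_self k
  · intro k
    exact stable_concat_self x k
  · choose m hm using fun j => conv_coord hx hε j
    refine ⟨(Finset.range (N + 1)).sup m, fun k hk => (hN _ ?_).trans hUV⟩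
    intro n hn
    apply hm n
    exact le_trans (Finset.le_sup (f := m) (Finset.mem_range.mpr (by omega))) hk

theorem el_usc : USC (OpenEL (absNorm P0 𝕂)) (OpenEL (absNorm P0 𝕂)) univ F := by
  intro x₀ _ V hV
  obtain ⟨U, hU, hFU, hUV⟩ := hV
  obtain ⟨ε, hε, N, hN⟩ := tube x₀ U hU hFU
  refine ⟨{x | ∀ n ≤ N, ‖x n - x₀ n‖ < ε}, ⟨{x | ∀ n ≤ N, ‖x n - x₀ n‖ < ε}, ?_, ?_, le_rfl⟩,
    fun x hx => (hN x hx.1).trans hUV⟩
  · intro x hx
    simp only [Set.mem_ofPred_eq] at hx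
    obtain ⟨η, hη, hη2⟩ : ∃ η : ℝ, 0 < η ∧ ∀ n ≤ N, η ≤ ε - ‖x n - x₀ n‖ := by
      have hne : (Finset.range (N + 1)).Nonempty := ⟨0, by simp⟩
      refine ⟨(Finset.range (N + 1)).inf' hne fun n => ε - ‖x n - x₀ n‖, ?_, ?_⟩
      · rw [Finset.lt_inf'_iff]
        intro n hn
        have := hx n (by simpa [Nat.lt_succ_iff] using hn)
        linarith
      · intro n hn
        exact Finset.inf'_le _ (Finset.mem_range.mpr (by omega))
    obtain ⟨r, hr, hr1, hr2⟩ : ∃ r : ℝ, 0 < r ∧ r < 1 ∧ ∀ n ≤ N, r ≤ (P0 {n}).toReal := by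
      have hne : (Finset.range (N + 1)).Nonempty := ⟨0, by simp⟩
      refine ⟨min (1 / 2) ((Finset.range (N + 1)).inf' hne fun n => (P0 {n}).toReal), ?_, ?_, ?_⟩
      · rw [lt_min_iff]
        refine ⟨by norm_num, ?_⟩
        rw [Finset.lt_inf'_iff]
        intro n _
        exact ENNReal.toReal_pos (P0_pos (mem_singleton n)).ne' (measure_ne_top _ _)
      · exact lt_of_le_of_lt (min_le_left _ _) (by norm_num)
      · intro n hn
        exact (min_le_right _ _).trans (Finset.inf'_le _ (Finset.mem_range.mpr (by omega)))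
    refine ⟨η, hη, r, hr, hr1, fun y hy n hn => ?_⟩
    have h1 : ‖y n - x n‖ < η := by
      by_contra hcon
      have h2 : {ω | (absNorm P0 𝕂).nm (y - x) ω < η} ⊆ {n}ᶜ := by
        intro ω hω hj
        have : ω = n := hj
        subst this
        simp only [Set.mem_ofPred_eq] at hω
        rw [abs_apply, sub_apply'] at hω
        exact hcon hω
      have h3 : (P0 {ω | (absNorm P0 𝕂).nm (y - x) ω < η}).toReal ≤ (P0 ({n}ᶜ : Set ℕ)).toReal :=
        ENNReal.toReal_mono (measure_ne_top _ _) (measure_mono h2)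
      have h4 : (P0 ({n}ᶜ : Set ℕ)).toReal = 1 - (P0 {n}).toReal := by
        have := probReal_compl_eq_one_sub (μ := P0) (measurableSet_singleton n)
        simpa [Measure.real] using this
      have := hr2 n hn
      linarith
    have h5 := hη2 n hn
    calc ‖y n - x₀ n‖ = ‖(y n - x n) + (x n - x₀ n)‖ := by congr 1; ring
      _ ≤ ‖y n - x n‖ + ‖x n - x₀ n‖ := norm_add_le _ _
      _ < ε := by linarith
  · rintro x hx n _
    have : x = x₀ := hx
    rw [this]
    simpa using hε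

theorem not_c_usc : ¬ USC (OpenC (absNorm P0 𝕂)) (OpenC (absNorm P0 𝕂)) univ F := by
  intro h
  -- `m` is the first place where `z` has the value `1`
  let fst : (ℕ →ₘ[P0] 𝕂) → ℕ → Prop := fun z m =>
    ((∀ n, z n = 0) ∧ m = 0) ∨ (z m = 1 ∧ ∀ i < m, z i = 0)
  let U : Set (ℕ →ₘ[P0] 𝕂) := {y | ∃ z ∈ F (0 : ℕ →ₘ[P0] 𝕂), ∃ m : ℕ,
    fst z m ∧ ∀ n, ‖y n - z n‖ < 1 / (2 + m : ℝ)}
  have h0 : ∀ n, (0 : ℕ →ₘ[P0] 𝕂) n = 0 := ae_iff_all.mp AEEqFun.coeFn_zero
  have hF0 : ∀ z ∈ F (0 : ℕ →ₘ[P0] 𝕂), ∀ n, z n = 0 ∨ z n = 1 := by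
    intro z hz n
    have := hz n
    rw [h0] at this
    simpa using this
  have hU : IsNbhd (OpenC (absNorm P0 𝕂)) (F (0 : ℕ →ₘ[P0] 𝕂)) U := by
    refine ⟨U, ?_, ?_, le_rfl⟩
    · rintro y ⟨z, hz, m, hm, hy⟩
      refine ⟨mkf fun n => 1 / (2 + m : ℝ) - ‖y n - z n‖, ?_, ?_⟩
      · rw [ae_iff_all]
        intro n
        rw [mkf_apply]
        have := hy n
        linarith
      · intro w hw
        rw [ae_iff_all] at hw
        refine ⟨z, hz, m, hm, fun n => ?_⟩
        have h1 := hw n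
        rw [abs_apply, sub_apply', mkf_apply] at h1
        calc ‖w n - z n‖ = ‖(w n - y n) + (y n - z n)‖ := by congr 1; ring
          _ ≤ ‖w n - y n‖ + ‖y n - z n‖ := norm_add_le _ _
          _ < 1 / (2 + m : ℝ) := by linarith
    · intro z hz
      have h1 : ∃ m, fst z m := by
        by_cases hall : ∀ n, z n = 0
        · exact ⟨0, Or.inl ⟨hall, rfl⟩⟩
        · push Not at hall
          classical
          have hex : ∃ n, z n ≠ 0 := hall
          refine ⟨Nat.find hex, Or.inr ⟨?_, ?_⟩⟩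
          · rcases hF0 z hz (Nat.find hex) with h | h
            · exact absurd h (Nat.find_spec hex)
            · exact h
          · intro i hi
            have := Nat.find_min hex hi
            push Not at this
            exact this
      obtain ⟨m, hm⟩ := h1
      refine ⟨z, hz, m, hm, fun n => ?_⟩
      rw [sub_self, norm_zero]
      positivity
  obtain ⟨V, ⟨U', hU', h0U', hU'V⟩, hV⟩ := h 0 trivial U hU
  obtain ⟨ε, hε, hbox⟩ := hU' 0 (h0U' rfl)
  rw [ae_iff_all] at hε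
  -- a small class with positive values
  let a : ℕ → ℝ := fun n => min (ε n) 1 / 2
  have ha0 : ∀ n, 0 < a n := fun n => by
    have := hε n
    simp only [a]
    positivity
  have ha1 : ∀ n, a n < ε n := fun n => by
    have h1 := hε n
    have h2 : min (ε n) 1 ≤ ε n := min_le_left _ _
    simp only [a]
    linarith
  have ha2 : ∀ n, a n ≤ 1 / 2 := fun n => by
    have h2 : min (ε n) 1 ≤ 1 := min_le_right _ _
    simp only [a]
    linarith
  let x : ℕ →ₘ[P0] 𝕂 := mkf fun n => ((a n : ℝ) : 𝕂)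
  have hx : ∀ n, ‖x n‖ = a n := by
    intro n
    simp only [x, mkf_apply]
    rw [RCLike.norm_ofReal, abs_of_pos (ha0 n)]
  have hxV : x ∈ V := by
    apply hU'V
    apply hbox
    rw [ae_iff_all]
    intro n
    rw [sub_zero, abs_apply, hx]
    exact ha1 n
  obtain ⟨m, hm⟩ := exists_nat_gt (1 / a 0)
  have hm2 : 1 / (2 + m : ℝ) ≤ a 0 := by
    rw [div_lt_iff₀ (ha0 0)] at hm
    rw [div_le_iff₀ (by positivity)]
    nlinarith [ha0 0]
  let z : ℕ →ₘ[P0] 𝕂 := mkf fun n => if n = m then 1 else 0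
  have hz : ∀ n, z n = if n = m then 1 else 0 := fun n => by simp only [z, mkf_apply]
  let y : ℕ →ₘ[P0] 𝕂 := mkf fun n => x n + z n
  have hy : ∀ n, y n = x n + z n := fun n => by simp only [y, mkf_apply]
  have hyF : y ∈ F x := by
    intro n
    rw [hy, hz]
    split_ifs
    · right; rfl
    · left; simp
  obtain ⟨z', hz', m', hm', hyz⟩ := hV x ⟨hxV, trivial⟩ hyF
  have hzz : ∀ n, z' n = z n := by
    intro n
    by_contra hne
    have h1 : ‖z n - z' n‖ = 1 := by
      rcases hF0 z' hz' n with h | h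
      · rcases (show z n = 0 ∨ z n = 1 by rw [hz]; split_ifs <;> simp) with h2 | h2
        · rw [h, h2] at hne; exact absurd rfl hne
        · rw [h, h2]; simp
      · rcases (show z n = 0 ∨ z n = 1 by rw [hz]; split_ifs <;> simp) with h2 | h2
        · rw [h, h2]; simp
        · rw [h, h2] at hne; exact absurd rfl hne
    have h2 := hyz n
    rw [hy] at h2
    have h3 : ‖z n - z' n‖ ≤ ‖x n + z n - z' n‖ + ‖x n‖ := by
      have : z n - z' n = (x n + z n - z' n) - x n := by ring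
      rw [this]
      exact norm_sub_le _ _
    have h4 : 1 / (2 + m' : ℝ) ≤ 1 / 2 := by
      apply one_div_le_one_div_of_le (by norm_num)
      have : (0 : ℝ) ≤ m' := Nat.cast_nonneg _
      linarith
    rw [hx] at h3
    linarith [ha2 n]
  have hmm : m' = m := by
    rcases hm' with ⟨hall, -⟩ | ⟨h1, -⟩
    · exfalso
      have := hall m
      rw [hzz, hz, if_pos rfl] at this
      exact one_ne_zero this
    · by_contra hne
      rw [hzz, hz, if_neg hne] at h1
      exact zero_ne_one h1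
  have h5 := hyz 0
  rw [hy, hzz, add_sub_cancel_right, hx, hmm] at h5
  linarith

end Example

/-- The equivalence fails: for the probability space `ℕ` with `P {k} = 2 ^ (-(k + 1))`, the RN module
`L⁰(P, 𝕂)` and the map `F x = {x + z : z has the values 0 and 1}`. -/
theorem result (𝕂 : Type) [RCLike 𝕂] :
    ∃ (P : Measure ℕ) (_ : IsProbabilityMeasure P)
      (F : (ℕ →ₘ[P] 𝕂) → Set (ℕ →ₘ[P] 𝕂)),
      SigmaStable P 𝕂 (univ : Set (ℕ →ₘ[P] 𝕂)) ∧
      (∀ x, (F x).Nonempty) ∧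
      SigmaStableMap P 𝕂 (univ : Set (ℕ →ₘ[P] 𝕂)) F ∧
      USC (OpenEL (absNorm P 𝕂)) (OpenEL (absNorm P 𝕂)) univ F ∧
      RandomSeqUSC (absNorm P 𝕂) (absNorm P 𝕂) univ F ∧
      ¬ USC (OpenC (absNorm P 𝕂)) (OpenC (absNorm P 𝕂)) univ F :=
  ⟨P0, inferInstance, F, stable_univ, fun x => ⟨x, fun _ => Or.inl rfl⟩, stable_F, el_usc, rs_usc,
    not_c_usc⟩

end Pool.Agent.Results.MP_4f3acd_an.RandomUpperSemicontinuity
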